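import Mathlib
import Pool.Agent.LeoK.UpStmts

/-!
# Squad LEOK, module LD5: forms modulo `p²` with `M ≠ 0`, `p` prime to 6
-/

set_option autoImplicit false

open Finset NumberField IsDedekindDomain

namespace Pool.Agent.LeoK.H52

theorem ld5 (hL : LocStmt) : Ld5Stmt := by
  classical
  intro k _ _ p h6
  set I : Ideal (𝓞 k) := p.asIdeal ^ 2 with hI
  have hp0 : p.asIdeal ≠ ⊥ := p.ne_bot
  have hI0 : I ≠ ⊥ := pow_ne_zero 2 hp0
  haveI : Finite (𝓞 k ⧸ I) := Ideal.finiteQuotientOfFreeOfNeBot I hI0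
  haveI : Fintype (𝓞 k ⧸ I) := Fintype.ofFinite _
  set q : ℕ := Ideal.absNorm p.asIdeal with hq
  have hq0 : q ≠ 0 := by
    rw [hq, Ne, Ideal.absNorm_eq_zero_iff]
    exact hp0
  have hIp : I ≤ p.asIdeal := by
    rw [hI]
    exact Ideal.pow_le_self (by norm_num)
  set J : Ideal (𝓞 k ⧸ I) := p.asIdeal.map (Ideal.Quotient.mk I) with hJ
  have hsurj : Function.Surjective (Ideal.Quotient.mk I) := Ideal.Quotient.mk_surjective
  have hmem : ∀ y : 𝓞 k, Ideal.Quotient.mk I y ∈ J ↔ y ∈ p.asIdeal := by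
    intro y
    rw [hJ, Ideal.mem_map_iff_of_surjective _ hsurj]
    constructor
    · rintro ⟨x, hx, hxy⟩
      have h1 := (Ideal.Quotient.eq.1 hxy)
      have h2 : y = x - (x - y) := by ring
      rw [h2]
      exact p.asIdeal.sub_mem hx (hIp h1)
    · intro h
      exact ⟨y, h, rfl⟩
  have hu : ∀ x : 𝓞 k ⧸ I, x ∉ J → IsUnit x := by
    intro x hx
    obtain ⟨y, rfl⟩ := hsurj x
    rw [hmem] at hx
    haveI := p.isMaximal
    obtain ⟨z, hz⟩ := Ideal.IsMaximal.exists_inv (I := p.asIdeal) inferInstance hx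
    obtain ⟨w, hw, hzw⟩ := hz
    have h1 : w ^ 2 ∈ I := by
      rw [hI]
      exact Ideal.pow_mem_pow hw 2
    refine IsUnit.of_mul_eq_one (Ideal.Quotient.mk I (z * (2 - y * z))) ?_
    rw [← map_mul, ← map_one (Ideal.Quotient.mk I), Ideal.Quotient.eq]
    have h2 : y * (z * (2 - y * z)) - 1 = -(w ^ 2) := by
      have h3 : w = 1 - z * y := by rw [← hzw]; ring
      rw [h3]
      ring
    rw [h2]
    exact I.neg_mem h1
  have hJJ : ∀ x ∈ J, ∀ y ∈ J, x * y = 0 := by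
    intro x hx y hy
    obtain ⟨a, rfl⟩ := hsurj x
    obtain ⟨b, rfl⟩ := hsurj y
    rw [hmem] at hx hy
    rw [← map_mul, Ideal.Quotient.eq_zero_iff_mem, hI, sq]
    exact Ideal.mul_mem_mul hx hy
  have h2 : IsUnit (2 : 𝓞 k ⧸ I) := by
    apply hu
    have h3 : (2 : 𝓞 k ⧸ I) = Ideal.Quotient.mk I 2 := by rw [map_ofNat]
    rw [h3, hmem]
    intro h4
    apply h6
    have h5 : (6 : 𝓞 k) = 3 * 2 := by norm_num
    rw [h5]
    exact p.asIdeal.mul_mem_left _ h4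
  have hA : Nat.card (𝓞 k ⧸ I) = q ^ 2 := by
    rw [hq, ← map_pow, ← hI, Ideal.absNorm_apply, Submodule.cardQuot_apply]
  have hP : Nat.card (𝓞 k ⧸ p.asIdeal) = q := by
    rw [hq, Ideal.absNorm_apply, Submodule.cardQuot_apply]
  have hJc : Nat.card J = q := by
    have h3 := Submodule.card_eq_card_quotient_mul_card J
    have h4 : Nat.card ((𝓞 k ⧸ I) ⧸ J) = q := by
      rw [← hP]
      exact Nat.card_congr (DoubleQuot.quotQuotEquivQuotOfLE hIp).toEquiv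
    rw [hA, h4, sq] at h3
    rcases Nat.eq_zero_or_pos q with h5 | h5
    · exact absurd h5 hq0
    · exact (Nat.eq_of_mul_eq_mul_left h5 (by linarith)).symm
  have hloc := hL (𝓞 k ⧸ I) J q hu hJJ h2 hA hJc
  have htot : Nat.card (Q4 (𝓞 k ⧸ I)) = q ^ 8 := by
    rw [Nat.card_fun, hA, Nat.card_eq_fintype_card, Fintype.card_fin, ← pow_mul]
  have hsum : Nat.card {v : Q4 (𝓞 k ⧸ I) // qM v = 0} +
      Nat.card {v : Q4 (𝓞 k ⧸ I) // qM v ≠ 0} = q ^ 8 := by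
    rw [← htot, Nat.card_eq_fintype_card, Nat.card_eq_fintype_card, Nat.card_eq_fintype_card,
      Fintype.card_subtype, Fintype.card_subtype, Finset.card_filter_add_card_filter_not,
      Finset.card_univ]
  rw [hloc] at hsum
  have hq1 : 1 ≤ 2 * q ^ 2 := by
    have := Nat.pos_of_ne_zero hq0
    have : 1 ≤ q ^ 2 := Nat.one_le_pow _ _ this
    omega
  have h7 : ((q : ℝ)) ^ 4 * (2 * (q : ℝ) ^ 2 - 1) +
      (Nat.card {v : Q4 (𝓞 k ⧸ I) // qM v ≠ 0} : ℝ) = (q : ℝ) ^ 8 := by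
    have h8 : ((q ^ 4 * (2 * q ^ 2 - 1) + Nat.card {v : Q4 (𝓞 k ⧸ I) // qM v ≠ 0} : ℕ) : ℝ) =
      ((q ^ 8 : ℕ) : ℝ) := by rw [hsum]
    rw [Nat.cast_add, Nat.cast_mul, Nat.cast_sub hq1] at h8
    push_cast at h8
    exact h8
  have hqr : (q : ℝ) ≠ 0 := by exact_mod_cast hq0
  have h9 : np p = (q : ℝ) := rfl
  rw [h9]
  have h10 : (q : ℝ) ^ 8 * (1 - 1 / (q : ℝ) ^ 2) ^ 2 =
      (q : ℝ) ^ 8 - (q : ℝ) ^ 4 * (2 * (q : ℝ) ^ 2 - 1) := by
    field_simp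
    ring
  rw [h10]
  linarith

end Pool.Agent.LeoK.H52
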