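import Mathlib
import Pool.Agent.LeoK.UpStmts

/-!
# Squad LEOK, module LOC: forms with `M = 0` over a local ring with `J² = 0`
-/

set_option autoImplicit false

open Finset

namespace Pool.Agent.LeoK.H52

section

variable {A : Type} [CommRing A] [Fintype A] [DecidableEq A] (J : Ideal A)

theorem not_mem_of_isUnit {x y : A} (hy : y ∉ J) (hx : IsUnit x) : x ∉ J := by
  intro h
  exact hy ((Ideal.eq_top_of_isUnit_mem J h hx) ▸ Submodule.mem_top)

open Classical in
/-- the cuspidal cubic -/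
theorem card_cusp (hu : ∀ x : A, x ∉ J → IsUnit x) (hJ : ∀ x ∈ J, ∀ y ∈ J, x * y = 0)
    (h2 : IsUnit (2 : A)) :
    (univ.filter fun w : A × A => w.2 ^ 2 = 4 * w.1 ^ 3).card =
      (univ.filter fun x : A => x ∉ J).card + (univ.filter fun x : A => x ∈ J).card ^ 2 := by
  rw [← Finset.card_filter_add_card_filter_not (s := univ.filter fun w : A × A =>
    w.2 ^ 2 = 4 * w.1 ^ 3) (fun w => w.1 ∉ J)]
  congr 1
  · symm
    refine Finset.card_bij (fun u _ => (u ^ 2, 2 * u ^ 3)) ?_ ?_ ?_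
    · intro u hu'
      rw [mem_filter] at hu'
      rw [mem_filter, mem_filter]
      refine ⟨⟨mem_univ _, ?_⟩, ?_⟩
      · simp only
        ring
      · exact not_mem_of_isUnit J hu'.2 ((hu u hu'.2).pow 2)
    · intro u hu' v hv' h
      rw [mem_filter] at hu' hv'
      rw [Prod.mk.injEq] at h
      obtain ⟨h3, h4⟩ := h
      have h5 : u ^ 3 = v ^ 3 := h2.mul_left_cancel h4
      have h6 : u * v ^ 2 = v * v ^ 2 := by
        rw [← h3, ← pow_succ', h5, h3, pow_succ']
      exact ((hu v hv'.2).pow 2).mul_right_cancel h6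
    · rintro ⟨P, X⟩ hw
      rw [mem_filter, mem_filter] at hw
      obtain ⟨⟨-, h3⟩, h4⟩ := hw
      simp only at h3 h4
      obtain ⟨p, hp⟩ := (hu P h4).exists_right_inv
      obtain ⟨t, ht⟩ := h2.exists_right_inv
      have h5 : (X * t * p) ^ 2 = P := by
        calc (X * t * p) ^ 2 = X ^ 2 * t ^ 2 * p ^ 2 := by ring
          _ = (2 * t) ^ 2 * (P * p) ^ 2 * P := by rw [h3]; ring
          _ = P := by rw [ht, hp]; ring
      refine ⟨X * t * p, ?_, ?_⟩
      · rw [mem_filter]
        refine ⟨mem_univ _, fun h6 => h4 ?_⟩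
        rw [← h5, sq]
        exact J.mul_mem_left _ h6
      · rw [Prod.mk.injEq]
        refine ⟨h5, ?_⟩
        calc 2 * (X * t * p) ^ 3 = 2 * (X * t * p) ^ 2 * (X * t * p) := by ring
          _ = (2 * t) * (P * p) * X := by rw [h5]; ring
          _ = X := by rw [ht, hp]; ring
  · rw [sq, ← Finset.card_product]
    congr 1
    ext ⟨P, X⟩
    rw [mem_filter, mem_filter, mem_product, mem_filter, mem_filter]
    simp only [mem_univ, true_and, not_not]
    constructor
    · rintro ⟨h3, h4⟩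
      refine ⟨h4, ?_⟩
      by_contra h5
      have h6 : P ^ 3 = 0 := by
        rw [pow_succ, sq, hJ P h4 P h4, zero_mul]
      rw [h6, mul_zero] at h3
      have h7 : IsUnit (X ^ 2) := (hu X h5).pow 2
      rw [h3] at h7
      exact not_mem_of_isUnit J h5 h7 J.zero_mem
    · rintro ⟨h3, h4⟩
      refine ⟨?_, h3⟩
      rw [sq, hJ X h4 X h4, pow_succ, sq, hJ P h3 P h3]
      ring

open Classical in
theorem card_unit (hu : ∀ x : A, x ∉ J → IsUnit x) (hJ : ∀ x ∈ J, ∀ y ∈ J, x * y = 0)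
    (h2 : IsUnit (2 : A)) (a b : A) (ha : a ∉ J) :
    (univ.filter fun w : A × A => fM a b w.1 w.2 = 0).card =
      (univ.filter fun x : A => x ∉ J).card + (univ.filter fun x : A => x ∈ J).card ^ 2 := by
  rw [← card_cusp J hu hJ h2]
  obtain ⟨t, ht⟩ := (hu a ha).exists_right_inv
  refine Finset.card_bij' (fun w _ => (b ^ 2 - a * w.1, 2 * b ^ 3 - 3 * a * b * w.1 + a ^ 2 * w.2))
    (fun w _ => ((b ^ 2 - w.1) * t,
      (w.2 - 2 * b ^ 3 + 3 * a * b * ((b ^ 2 - w.1) * t)) * t ^ 2)) ?_ ?_ ?_ ?_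
  · rintro ⟨c, d⟩ hw
    rw [mem_filter] at hw ⊢
    refine ⟨mem_univ _, ?_⟩
    have h3 : fM a b c d = 0 := hw.2
    simp only
    have h4 : (2 * b ^ 3 - 3 * a * b * c + a ^ 2 * d) ^ 2 + a ^ 2 * fM a b c d =
        4 * (b ^ 2 - a * c) ^ 3 := by
      simp only [fM, fP, fQ, fR]
      ring
    rw [h3, mul_zero, add_zero] at h4
    exact h4
  · rintro ⟨P, X⟩ hw
    rw [mem_filter] at hw ⊢
    refine ⟨mem_univ _, ?_⟩
    have h3 : X ^ 2 = 4 * P ^ 3 := hw.2
    simp only
    set c := (b ^ 2 - P) * t with hc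
    set d := (X - 2 * b ^ 3 + 3 * a * b * c) * t ^ 2 with hd
    have h4 : (2 * b ^ 3 - 3 * a * b * c + a ^ 2 * d) ^ 2 + a ^ 2 * fM a b c d =
        4 * (b ^ 2 - a * c) ^ 3 := by
      simp only [fM, fP, fQ, fR]
      ring
    have h5 : b ^ 2 - a * c = P := by
      rw [hc]
      calc b ^ 2 - a * ((b ^ 2 - P) * t) = b ^ 2 - (a * t) * (b ^ 2 - P) := by ring
        _ = P := by rw [ht]; ring
    have h6 : 2 * b ^ 3 - 3 * a * b * c + a ^ 2 * d = X := by
      rw [hd]
      calc 2 * b ^ 3 - 3 * a * b * c + a ^ 2 * ((X - 2 * b ^ 3 + 3 * a * b * c) * t ^ 2)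
          = 2 * b ^ 3 - 3 * a * b * c + (a * t) ^ 2 * (X - 2 * b ^ 3 + 3 * a * b * c) := by ring
        _ = X := by rw [ht]; ring
    rw [h5, h6, h3] at h4
    have h7 : a ^ 2 * fM a b c d = a ^ 2 * 0 := by
      rw [mul_zero]
      exact left_eq_add.1 h4.symm
    exact ((hu a ha).pow 2).mul_left_cancel h7
  · rintro ⟨c, d⟩ _
    simp only
    have h3 : (b ^ 2 - (b ^ 2 - a * c)) * t = c := by
      calc (b ^ 2 - (b ^ 2 - a * c)) * t = (a * t) * c := by ring
        _ = c := by rw [ht, one_mul]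
    rw [h3]
    refine Prod.ext rfl ?_
    simp only
    calc (2 * b ^ 3 - 3 * a * b * c + a ^ 2 * d - 2 * b ^ 3 + 3 * a * b * c) * t ^ 2
        = (a * t) ^ 2 * d := by ring
      _ = d := by rw [ht, one_pow, one_mul]
  · rintro ⟨P, X⟩ _
    simp only
    refine Prod.ext ?_ ?_
    · simp only
      calc b ^ 2 - a * ((b ^ 2 - P) * t) = b ^ 2 - (a * t) * (b ^ 2 - P) := by ring
        _ = P := by rw [ht]; ring
    · simp only
      set c := (b ^ 2 - P) * t with hc
      calc 2 * b ^ 3 - 3 * a * b * c + a ^ 2 * ((X - 2 * b ^ 3 + 3 * a * b * c) * t ^ 2)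
          = 2 * b ^ 3 - 3 * a * b * c + (a * t) ^ 2 * (X - 2 * b ^ 3 + 3 * a * b * c) := by ring
        _ = X := by rw [ht]; ring

theorem card_mid (hu : ∀ x : A, x ∉ J → IsUnit x) (hJ : ∀ x ∈ J, ∀ y ∈ J, x * y = 0)
    (h2 : IsUnit (2 : A)) (a b : A) (ha : a ∈ J) (hb : b ∉ J) :
    (univ.filter fun w : A × A => fM a b w.1 w.2 = 0).card = Fintype.card A := by
  have hκ : ∀ c : A, IsUnit (-4 * b ^ 3 + 6 * a * b * c) := by
    intro c
    apply hu
    intro h3
    have h4 : 6 * a * b * c ∈ J := by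
      have : 6 * a * b * c = (6 * b * c) * a := by ring
      rw [this]
      exact J.mul_mem_left _ ha
    have h5 : (2 : A) ^ 2 * b ^ 3 ∈ J := by
      have : (2 : A) ^ 2 * b ^ 3 = 6 * a * b * c - (-4 * b ^ 3 + 6 * a * b * c) := by ring
      rw [this]
      exact J.sub_mem h4 h3
    exact not_mem_of_isUnit J hb ((h2.pow 2).mul ((hu b hb).pow 3)) h5
  choose κ' hκ' using fun c => (hκ c).exists_right_inv
  have hM : ∀ c d : A, fM a b c d =
      3 * b ^ 2 * c ^ 2 - 4 * a * c ^ 3 + (-4 * b ^ 3 + 6 * a * b * c) * d := by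
    intro c d
    have h3 : a * a = 0 := hJ a ha a ha
    simp only [fM, fP, fQ, fR]
    linear_combination (-d ^ 2) * h3
  symm
  rw [← Finset.card_univ]
  refine Finset.card_bij (fun c _ => (c, -(3 * b ^ 2 * c ^ 2 - 4 * a * c ^ 3) * κ' c)) ?_ ?_ ?_
  · intro c _
    rw [mem_filter]
    refine ⟨mem_univ _, ?_⟩
    simp only
    rw [hM]
    calc 3 * b ^ 2 * c ^ 2 - 4 * a * c ^ 3 + (-4 * b ^ 3 + 6 * a * b * c) *
          (-(3 * b ^ 2 * c ^ 2 - 4 * a * c ^ 3) * κ' c)
        = (3 * b ^ 2 * c ^ 2 - 4 * a * c ^ 3) -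
          ((-4 * b ^ 3 + 6 * a * b * c) * κ' c) * (3 * b ^ 2 * c ^ 2 - 4 * a * c ^ 3) := by ring
      _ = 0 := by rw [hκ' c]; ring
  · intro c _ c' _ h
    exact (Prod.mk.inj h).1
  · rintro ⟨c, d⟩ hw
    rw [mem_filter] at hw
    have h3 : fM a b c d = 0 := hw.2
    rw [hM] at h3
    refine ⟨c, mem_univ _, ?_⟩
    refine Prod.ext rfl ?_
    simp only
    calc -(3 * b ^ 2 * c ^ 2 - 4 * a * c ^ 3) * κ' c
        = ((-4 * b ^ 3 + 6 * a * b * c) * d) * κ' c := by
          congr 1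
          linear_combination -h3
      _ = ((-4 * b ^ 3 + 6 * a * b * c) * κ' c) * d := by ring
      _ = d := by rw [hκ' c, one_mul]

open Classical in
theorem card_low (hu : ∀ x : A, x ∉ J → IsUnit x) (hJ : ∀ x ∈ J, ∀ y ∈ J, x * y = 0)
    (h2 : IsUnit (2 : A)) (a b : A) (ha : a ∈ J) (hb : b ∈ J) :
    (univ.filter fun w : A × A => fM a b w.1 w.2 = 0).card =
      (if a = 0 then Fintype.card A else (univ.filter fun x : A => x ∈ J).card) *
        Fintype.card A := by
  have hM : ∀ c d : A, fM a b c d = -(2 ^ 2 * (a * c ^ 3)) := by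
    intro c d
    have h3 : a * a = 0 := hJ a ha a ha
    have h4 : a * b = 0 := hJ a ha b hb
    have h5 : b * b = 0 := hJ b hb b hb
    simp only [fM, fP, fQ, fR]
    linear_combination (-d ^ 2) * h3 + (6 * c * d) * h4 + (3 * c ^ 2 - 4 * b * d) * h5
  have h3 : (univ.filter fun w : A × A => fM a b w.1 w.2 = 0) =
      (univ.filter fun c : A => a = 0 ∨ c ∈ J) ×ˢ (univ : Finset A) := by
    ext ⟨c, d⟩
    rw [mem_filter, mem_product, mem_filter]
    simp only [mem_univ, true_and, and_true]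
    rw [hM]
    constructor
    · intro h4
      by_contra h5
      push Not at h5
      obtain ⟨h6, h7⟩ := h5
      have h8 : 2 ^ 2 * (a * c ^ 3) = 2 ^ 2 * 0 := by
        rw [mul_zero]
        exact neg_eq_zero.1 h4
      have h9 : a * c ^ 3 = 0 := (h2.pow 2).mul_left_cancel h8
      exact h6 (((hu c h7).pow 3).mul_left_eq_zero.1 h9)
    · rintro (h4 | h4)
      · rw [h4]
        ring
      · have h5 : a * c = 0 := hJ a ha c h4
        have h6 : a * c ^ 3 = (a * c) * c ^ 2 := by ring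
        rw [h6, h5]
        ring
  rw [h3, Finset.card_product, Finset.card_univ]
  congr 1
  split_ifs with h
  · simp [h]
  · simp [h]

end

theorem loc : LocStmt := by
  classical
  intro A _ _ J q hu hJ h2 hA hJc
  have hA' : Fintype.card A = q ^ 2 := by rw [← hA, Nat.card_eq_fintype_card]
  have hJ' : (univ.filter fun x : A => x ∈ J).card = q := by
    rw [← hJc, Nat.card_eq_fintype_card, Fintype.card_subtype]
  have hU : (univ.filter fun x : A => x ∉ J).card + q = q ^ 2 := by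
    have := Finset.card_filter_add_card_filter_not (s := (univ : Finset A)) (fun x => x ∈ J)
    rw [hJ', Finset.card_univ, hA'] at this
    omega
  have hq : 1 ≤ q := by
    rw [← hJ']
    exact Finset.card_pos.2 ⟨0, by simp⟩
  set U := (univ.filter fun x : A => x ∉ J).card with hUdef
  -- the fibres
  have hfib : ∀ a b : A, (univ.filter fun w : A × A => fM a b w.1 w.2 = 0).card =
      if a ∉ J then U + q ^ 2 else if b ∉ J then q ^ 2 else (if a = 0 then q ^ 2 else q) * q ^ 2 := by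
    intro a b
    by_cases h3 : a ∈ J
    · rw [if_neg (not_not.2 h3)]
      by_cases h4 : b ∈ J
      · rw [if_neg (not_not.2 h4), card_low J hu hJ h2 a b h3 h4, hA', hJ']
      · rw [if_pos h4, card_mid J hu hJ h2 a b h3 h4, hA']
    · rw [if_pos h3, card_unit J hu hJ h2 a b h3, hJ']
  -- the equivalence with quadruples
  have hcard : Nat.card {v : Q4 A // qM v = 0} =
      ∑ a : A, ∑ b : A, (univ.filter fun w : A × A => fM a b w.1 w.2 = 0).card := by
    have e : {v : Q4 A // qM v = 0} ≃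
        Σ a : A, Σ b : A, {w : A × A // fM a b w.1 w.2 = 0} :=
      { toFun := fun v => ⟨v.1 0, v.1 1, ⟨(v.1 2, v.1 3), v.2⟩⟩
        invFun := fun x => ⟨![x.1, x.2.1, x.2.2.1.1, x.2.2.1.2], x.2.2.2⟩
        left_inv := by
          rintro ⟨v, hv⟩
          apply Subtype.ext
          funext i
          fin_cases i <;> rfl
        right_inv := by
          rintro ⟨a, b, ⟨⟨c, d⟩, h⟩⟩
          rfl }
    rw [Nat.card_congr e, Nat.card_eq_fintype_card, Fintype.card_sigma]
    refine Finset.sum_congr rfl fun a _ => ?_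
    rw [Fintype.card_sigma]
    refine Finset.sum_congr rfl fun b _ => ?_
    rw [Fintype.card_subtype]
  rw [hcard]
  have hJb : ∀ (s t : ℕ), ∑ b : A, (if b ∉ J then s else t) = U * s + q * t := by
    intro s t
    rw [Finset.sum_ite, Finset.sum_const, Finset.sum_const, smul_eq_mul, smul_eq_mul]
    congr 2
    rw [← hJ']
    congr 1
    ext x
    simp
  have hin : ∀ a : A, ∑ b : A, (univ.filter fun w : A × A => fM a b w.1 w.2 = 0).card =
      if a ∉ J then q ^ 2 * (U + q ^ 2) else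
        U * q ^ 2 + q * ((if a = 0 then q ^ 2 else q) * q ^ 2) := by
    intro a
    rw [Finset.sum_congr rfl fun b _ => hfib a b]
    by_cases h3 : a ∈ J
    · simp only [if_neg (not_not.2 h3)]
      rw [hJb]
    · simp only [if_pos h3]
      rw [Finset.sum_const, Finset.card_univ, hA', smul_eq_mul]
  rw [Finset.sum_congr rfl fun a _ => hin a, Finset.sum_ite, Finset.sum_const, smul_eq_mul]
  have h5 : (univ.filter fun x : A => ¬ x ∉ J) = univ.filter fun x : A => x ∈ J := by
    ext x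
    simp
  rw [h5, Finset.sum_add_distrib, Finset.sum_const, hJ', smul_eq_mul, ← Finset.mul_sum,
    ← Finset.sum_mul]
  have h6 : ∑ i ∈ univ.filter (fun x : A => x ∈ J), (if i = 0 then q ^ 2 else q) + q =
      q ^ 2 + q * q := by
    have h7 : (0 : A) ∈ univ.filter (fun x : A => x ∈ J) := by simp
    rw [← Finset.add_sum_erase _ _ h7, if_pos rfl]
    have h8 : ∑ i ∈ (univ.filter (fun x : A => x ∈ J)).erase 0, (if i = 0 then q ^ 2 else q) =
        (q - 1) * q := by
      rw [Finset.sum_congr rfl fun i hi => if_neg (Finset.ne_of_mem_erase hi), Finset.sum_const,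
        Finset.card_erase_of_mem h7, hJ', smul_eq_mul]
    rw [h8]
    obtain ⟨r, rfl⟩ : ∃ r, q = r + 1 := ⟨q - 1, by omega⟩
    simp only [Nat.add_sub_cancel]
    ring
  set T := ∑ i ∈ univ.filter (fun x : A => x ∈ J), (if i = 0 then q ^ 2 else q) with hT
  obtain ⟨r, rfl⟩ : ∃ r, q = r + 1 := ⟨q - 1, by omega⟩
  have hU' : U = (r + 1) * r := by
    have : (r + 1) * r + (r + 1) = (r + 1) ^ 2 := by ring
    omega
  have hT' : T = (r + 1) ^ 2 + (r + 1) * r := by
    have : (r + 1) * r + (r + 1) = (r + 1) * (r + 1) := by ring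
    omega
  have h9 : 2 * (r + 1) ^ 2 - 1 = 2 * r ^ 2 + 4 * r + 1 := by
    have : 2 * (r + 1) ^ 2 = 2 * r ^ 2 + 4 * r + 2 := by ring
    omega
  have hUc : (univ.filter fun x : A => x ∉ J).card = (r + 1) * r := hU'
  rw [hUc, hT', h9, hU']
  ring

end Pool.Agent.LeoK.H52
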